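import Pool.Agent.H.MP_a755a8_mp.E

open MeasureTheory Filter Topology Set Real Function
open scoped ContDiff

namespace Pool.Agent.Results.MP_a755a8_mp.Third

open Pool.Agent.H.MP_a755a8_mp

def Admissible (V : (Fin 3 → ℝ) × (Fin 3 → ℝ) → ℝ) (W : (Fin 3 → ℝ) → ℝ) : Prop :=
  (Measurable V ∧ (∀ p, 0 ≤ V p) ∧ (∃ M, ∀ p, V p ≤ M) ∧ HasCompactSupport V ∧ ¬ V =ᵐ[volume] 0 ∧ (∀ x y, V (x, y) = V (y, x)) ∧
    ∀ x y z, V (x - y, x - z) = V (y - x, y - z) ∧ V (y - x, y - z) = V (z - y, z - x)) ∧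
  Measurable W ∧ (∀ x, W x ≤ 0) ∧ (∀ x, W (-x) = W x) ∧ (∃ M, ∀ x, |W x| ≤ M) ∧ HasCompactSupport W

noncomputable def density (X : (Fin 3 → ℝ) → ℝ) (V : (Fin 3 → ℝ) × (Fin 3 → ℝ) → ℝ) (W : (Fin 3 → ℝ) → ℝ) (β : ℝ) (N : ℕ)
    (ψ : (Fin N → Fin 3 → ℝ) → ℂ) (x : Fin N → Fin 3 → ℝ) : ℝ :=
  ∑ i, ∑ d, ‖fderiv ℝ ψ x (Pi.single i (Pi.single d 1))‖ ^ 2 +
  (∑ i, X (x i) + ∑ i, ∑ j, (if i < j then (N : ℝ) ^ (3 * β - 1) * W ((N : ℝ) ^ β • (x i - x j)) else 0) +
    ∑ i, ∑ j, ∑ k, (if i < j ∧ j < k then N * V (√N • (x i - x j), √N • (x i - x k)) else 0)) * ‖ψ x‖ ^ 2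

def Stable (X : (Fin 3 → ℝ) → ℝ) (V : (Fin 3 → ℝ) × (Fin 3 → ℝ) → ℝ) (W : (Fin 3 → ℝ) → ℝ) (β : ℝ) : Prop :=
  ∃ C > 0, ∀ N : ℕ, 1 ≤ N → ∀ ψ : (Fin N → Fin 3 → ℝ) → ℂ, ContDiff ℝ ∞ ψ → HasCompactSupport ψ →
    (∀ (σ : Equiv.Perm (Fin N)) x, ψ (x ∘ σ) = ψ x) → -(C * N) * ∫ x, ‖ψ x‖ ^ 2 ≤ ∫ x, density X V W β N ψ x

theorem parts {X : R3 → ℝ} (mX : Measurable X) (bX : ∀ R, ∃ M, ∀ x, ‖x‖ ≤ R → |X x| ≤ M) {V : R3 × R3 → ℝ} {W : R3 → ℝ} (h : Admissible V W)
    (β : ℝ) {N : ℕ} {ψ : (Fin N → R3) → ℂ} (sψ : ContDiff ℝ ∞ ψ) (cψ : HasCompactSupport ψ) :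
    Integrable (fun x => (∑ i, X (x i)) * ‖ψ x‖ ^ 2) ∧
    Integrable (fun x => (∑ i, ∑ j, (if i < j then (N : ℝ) ^ (3 * β - 1) * W ((N : ℝ) ^ β • (x i - x j)) else 0)) * ‖ψ x‖ ^ 2) ∧
    Integrable (en ψ (U3 V ψ) Finset.univ) ∧ density X V W β N ψ = fun x => en ψ (U3 V ψ) Finset.univ x + ((∑ i, X (x i)) * ‖ψ x‖ ^ 2 +
      (∑ i, ∑ j, (if i < j then (N : ℝ) ^ (3 * β - 1) * W ((N : ℝ) ^ β • (x i - x j)) else 0)) * ‖ψ x‖ ^ 2) := by
  obtain ⟨⟨mV, V0, ⟨M, hM⟩, -⟩, mW, -, -, ⟨L, hL⟩, -⟩ := h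
  have c := sψ.continuous
  refine ⟨?_, ?_, ?_, funext fun x => ?_⟩
  · simp only [Finset.sum_mul]
    exact integrable_finsetSum _ fun i _ => ib c cψ (by fun_prop) fun R => (bX R).imp fun M hM x hx => hM _ ((norm_le_pi_norm x i).trans hx)
  · simp only [Finset.sum_mul]
    refine integrable_finsetSum _ fun i _ => integrable_finsetSum _ fun j _ => ?_
    split_ifs
    · exact ib c cψ (by fun_prop) fun R => ⟨|(N : ℝ) ^ (3 * β - 1)| * L, fun x _ => by rw [abs_mul]; gcongr; exact hL _⟩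
    · simp
  · refine integrable_finsetSum _ fun i _ => (ik (sψ.of_le (by simp)) cψ i).add
      (integrable_finsetSum _ fun j _ => integrable_finsetSum _ fun k _ => ?_)
    unfold U3
    split_ifs
    · exact ib c cψ (by fun_prop) fun R => ⟨N * M, fun x _ => by rw [abs_of_nonneg (mul_nonneg (by positivity) (V0 _))]; gcongr; exact hM _⟩
    · simp
  · simp only [density, en, U3, kin, Finset.sum_add_distrib, add_mul, Finset.sum_mul, ite_mul, zero_mul]; ring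

theorem result (X : (Fin 3 → ℝ) → ℝ) (mX : Measurable X) (bX : ∀ R, ∃ M, ∀ x, ‖x‖ ≤ R → |X x| ≤ M) (c α : ℝ) (hc : 0 < c) (_hα : 0 < α)
    (hX : ∀ x, c * √(∑ d, x d ^ 2) ^ α ≤ X x) :
    {β ∈ Ioc (0 : ℝ) 1 | ∀ V W, Admissible V W → Stable X V W β} = Ioo 0 (1 / 3) ∧
    ∀ V W β N ψ, Admissible V W → ContDiff ℝ ∞ ψ → HasCompactSupport ψ → Integrable (density X V W β N ψ) := by
  refine ⟨Set.ext fun β => ⟨fun ⟨hb, h⟩ => ⟨hb.1, not_le.1 fun b3 => ?_⟩, fun hb => ⟨⟨hb.1, by linarith [hb.2]⟩, fun V W h => ?_⟩⟩,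
    fun V W β N ψ h sψ cψ => ?_⟩
  · obtain ⟨κ, k0, tr⟩ := trial
    obtain ⟨V, mV, V0, V1, cV, nV, s1, s2, Vz⟩ := hole
    let W : R3 → ℝ := fun y => if ‖y‖ ≤ 1 then -(4 * (κ + 1)) else 0
    have ad : Admissible V W := ⟨⟨mV, V0, ⟨1, V1⟩, cV, nV, s1, s2⟩, .ite (measurableSet_le measurable_norm measurable_const) measurable_const measurable_const,
      fun x => by simp only [W]; split_ifs <;> linarith, fun x => by simp [W], ⟨4 * (κ + 1), fun x => by
        simp only [W]; split_ifs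
        · rw [abs_neg, abs_of_nonneg (by linarith)]
        · rw [abs_zero]; linarith⟩, .intro (isCompact_closedBall 0 1) fun x hx => if_neg (by simpa using hx)⟩
    obtain ⟨C, C0, hC⟩ := h V W ad
    obtain ⟨M, hM⟩ := bX 1
    obtain ⟨N, hN⟩ := exists_nat_gt (max 2 (C + M))
    have n2 : (2 : ℝ) < N := (le_max_left _ _).trans_lt hN
    have n3 : C + M < N := (le_max_right _ _).trans_lt hN
    set ν := max ((N : ℝ) ^ β) √N
    have v1 : 1 ≤ ν := (one_le_rpow (by linarith) hb.1.le).trans (le_max_left _ _)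
    have p1 : (N : ℝ) ≤ (N : ℝ) ^ (3 * β) := (rpow_one _).symm.trans_le (rpow_le_rpow_of_exponent_le (by linarith) (by linarith))
    have v2 : ν ^ 2 ≤ (N : ℝ) ^ (3 * β) := by
      rcases max_choice ((N : ℝ) ^ β) √N with e | e <;> rw [show ν = _ from e]
      · rw [← rpow_natCast, ← rpow_mul (by linarith)]; exact rpow_le_rpow_of_exponent_le (by linarith) (by push_cast; linarith [hb.1])
      · rwa [sq_sqrt (by linarith)]
    obtain ⟨ψ, sψ, cψ, sy, sp, G0, ki⟩ := tr N ν (by linarith)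
    have st := hC N (by exact_mod_cast (by linarith : (1 : ℝ) ≤ N)) ψ sψ cψ sy
    obtain ⟨i1, i2, i3, e⟩ := parts mX bX ad β sψ cψ
    have cl : ∀ x, ψ x ≠ 0 → ∀ i j, ∀ t : ℝ, 0 ≤ t → t ≤ ν → ‖t • (x i - x j)‖ ≤ 1 := fun x hx i j t t0 t1 => by
      have a := norm_sub_le (ν • x i) (ν • x j)
      rw [← smul_sub, norm_smul, Real.norm_eq_abs, abs_of_pos (by linarith)] at a
      rw [norm_smul, Real.norm_eq_abs, abs_of_nonneg t0]
      linarith [sp x hx i, sp x hx j, mul_le_mul_of_nonneg_right t1 (norm_nonneg (x i - x j))]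
    have i0 := ib sψ.continuous cψ (f := fun _ => N * M - (N : ℝ) ^ (3 * β - 1) * (4 * (κ + 1)) * (N * (N - 1) / 2)) measurable_const
      fun _ => ⟨_, fun _ _ => le_rfl⟩
    have i4 : ∀ i, Integrable (kin ψ i) := ik (sψ.of_le (by simp)) cψ
    have up := integral_mono (e ▸ i3.add (i1.add i2)) ((integrable_finsetSum Finset.univ fun i _ => i4 i).add i0) fun x => (by
      refine add_le_add le_rfl ?_
      by_cases hx : ψ x = 0
      · simp [hx]
      refine mul_le_mul_of_nonneg_right ?_ (sq_nonneg _)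
      have a1 : ∑ i, X (x i) ≤ N * M := (Finset.sum_le_card_nsmul _ _ M fun i _ => (le_abs_self _).trans (hM _ (by
        have := sp x hx i
        rw [norm_smul, Real.norm_eq_abs, abs_of_pos (by linarith)] at this
        nlinarith [norm_nonneg (x i)]))).trans_eq (by simp)
      simp only [Vz _ _ (cl x hx _ _ _ (sqrt_nonneg _) (le_max_right _ _)), W,
        cl x hx _ _ _ (rpow_nonneg (Nat.cast_nonneg N) β) (le_max_left _ _), if_true, mul_zero, ite_self, Finset.sum_const_zero, add_zero]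
      rw [← prs, Finset.mul_sum, sub_eq_add_neg (N * M), ← Finset.sum_neg_distrib]
      refine add_le_add a1 (le_of_eq (Finset.sum_congr rfl fun i _ => ?_))
      rw [Finset.mul_sum, ← Finset.sum_neg_distrib]
      exact Finset.sum_congr rfl fun j _ => by split_ifs <;> ring :
      density X V W β N ψ x ≤ ∑ i, kin ψ i x + (N * M - (N : ℝ) ^ (3 * β - 1) * (4 * (κ + 1)) * (N * (N - 1) / 2)) * ‖ψ x‖ ^ 2)
    simp only [Pi.add_apply] at up
    rw [integral_add (integrable_finsetSum Finset.univ fun i _ => i4 i) i0, integral_finsetSum _ fun i _ => i4 i, integral_const_mul] at up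
    simp only [ki, Finset.sum_const, Finset.card_univ, Fintype.card_fin, nsmul_eq_mul] at up
    rw [← mul_assoc, ← add_mul] at up
    have fin := le_of_mul_le_mul_right (st.trans up) G0
    rw [rpow_sub (by linarith), rpow_one] at fin
    set T := (N : ℝ) ^ (3 * β)
    have q : T / N * (4 * (κ + 1)) * (N * (N - 1) / 2) = 2 * T * (κ + 1) * (N - 1) := by field_simp; ring
    have q1 : N * (κ * ν ^ 2) ≤ N * (κ * T) := by gcongr
    have q2 : T * (κ + 1) * N ≤ 2 * T * (κ + 1) * (N - 1) := by nlinarith [mul_nonneg (mul_nonneg (by linarith : 0 ≤ T) (by linarith : 0 ≤ κ + 1)) (by linarith : (0 : ℝ) ≤ N - 2)]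
    nlinarith
  · have h' := h
    obtain ⟨⟨mV, V0, -, cV, nV, -⟩, mW, W0, -, ⟨L, hL⟩, cW⟩ := h'
    obtain ⟨ρ, -, hρ⟩ := cW.isCompact.isBounded.exists_pos_norm_le
    have L0 : 0 ≤ L := (abs_nonneg _).trans (hL 0)
    obtain ⟨C, C0, hC⟩ := core mV V0 cV nV (ρ := ρ) hb.1 hb.2 L0
    refine ⟨C, C0, fun N hN ψ sψ cψ _ => ?_⟩
    obtain ⟨i1, i2, i3, e⟩ := parts mX bX h β sψ cψ
    have i0 := ib sψ.continuous cψ (f := fun _ => C * N) measurable_const fun _ => ⟨_, fun _ _ => le_rfl⟩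
    have U0 : ∀ i j k x, 0 ≤ U3 V ψ i j k x := fun i j k x => by
      have := V0 (√N • (x i - x j), √N • (x i - x k))
      unfold U3; split_ifs <;> positivity
    have p : 0 ≤ (N : ℝ) ^ (3 * β - 1) := by positivity
    have a := (lintegral_mono fun x => ENNReal.ofReal_le_ofReal (?_ :
      -((∑ i, ∑ j, (if i < j then (N : ℝ) ^ (3 * β - 1) * W ((N : ℝ) ^ β • (x i - x j)) else 0)) * ‖ψ x‖ ^ 2) ≤ _)).trans
      (hC N hN ψ (sψ.of_le (by simp)))
    swap
    · rw [← neg_mul]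
      gcongr
      rw [Finset.mul_sum, ← Finset.sum_neg_distrib]
      refine Finset.sum_le_sum fun i _ => ?_
      rw [Finset.mul_sum, ← Finset.sum_neg_distrib]
      refine Finset.sum_le_sum fun j _ => ?_
      split_ifs with g1 g2
      · nlinarith [neg_abs_le (W ((N : ℝ) ^ β • (x i - x j))), hL ((N : ℝ) ^ β • (x i - x j))]
      · simp [image_eq_zero_of_notMem_tsupport fun t => g2 (hρ _ t)]
      · simp; positivity
      · simp
    simp only [← ENNReal.ofReal_mul (by positivity : 0 ≤ C * N)] at a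
    rw [lintegral_congr fun x => (ENNReal.ofReal_add (en0 U0 _ x) (by positivity)).symm] at a
    erw [← ofReal_integral_eq_lintegral_ofReal (i3.add i0) (.of_forall fun x => add_nonneg (en0 U0 _ x) (by positivity)),
      ← ofReal_integral_eq_lintegral_ofReal i2.neg (.of_forall fun x => neg_nonneg.2 (mul_nonpos_of_nonpos_of_nonneg
        (Finset.sum_nonpos fun i _ => Finset.sum_nonpos fun j _ => by
          split_ifs
          · exact mul_nonpos_of_nonneg_of_nonpos p (W0 _)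
          · rfl) (sq_nonneg _)))] at a
    simp only [Pi.add_apply, Pi.neg_apply] at a
    replace a := (ENNReal.ofReal_le_ofReal_iff (integral_nonneg fun x => add_nonneg (en0 U0 Finset.univ x) (by positivity))).1 a
    rw [integral_neg, integral_add i3 i0, integral_const_mul] at a
    rw [e]
    erw [integral_add i3 (i1.add i2), integral_add i1 i2]
    have : 0 ≤ ∫ x, (∑ i, X (x i)) * ‖ψ x‖ ^ 2 := integral_nonneg fun x => mul_nonneg (Finset.sum_nonneg fun i _ =>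
      le_trans (by positivity) (hX _)) (sq_nonneg _)
    linarith
  · obtain ⟨i1, i2, i3, e⟩ := parts mX bX h β sψ cψ
    exact e ▸ i3.add (i1.add i2)

end Pool.Agent.Results.MP_a755a8_mp.Third
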